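import Mathlib

/-!
MP_7d29a1_pr (track G, frame): products of first passage weights by time levels.

`N t` is the running weight of the passages up to the time `t` (known at time `t`), `r t` (nonincreasing in `t`) bounds the weights of the
continuations started at the times `≥ t`, independent of the past of `t`. Then the `θ` moment of `∑ t, f t * r t`, where `f` is any nonnegative
sequence with partial sums `≤ N`, is at most `4` times the product of the `θ` moments. The proof uses the times at which the running weight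
is more than `q = 2 ^ (1 / θ)` times its last record.
-/

set_option autoImplicit false

open MeasureTheory ProbabilityTheory Finset
open scoped ENNReal

namespace Pool.Agent.W_7d29a1_h83

/-- Partial sums and a nonincreasing weight. -/
theorem abel_le {f g r : ℕ → ℝ} (hr0 : ∀ t, 0 ≤ r t) (hr : Antitone r) {n : ℕ}
    (h : ∀ k, k ≤ n → ∑ t ∈ range k, f t ≤ ∑ t ∈ range k, g t) :
    ∑ t ∈ range n, f t * r t ≤ ∑ t ∈ range n, g t * r t := by
  have key : ∀ k, k ≤ n → r k * (∑ t ∈ range k, g t - ∑ t ∈ range k, f t)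
      ≤ ∑ t ∈ range k, g t * r t - ∑ t ∈ range k, f t * r t := by
    intro k
    induction k with
    | zero => intro _; simp
    | succ k ih =>
      intro hk
      have h1 := ih (by omega)
      have h2 := h (k + 1) hk
      have h3 := hr (Nat.le_succ k)
      rw [sum_range_succ, sum_range_succ, sum_range_succ, sum_range_succ]
      rw [sum_range_succ, sum_range_succ] at h2
      have h4 : r (k + 1) * (∑ t ∈ range k, g t + g k - (∑ t ∈ range k, f t + f k))
          ≤ r k * (∑ t ∈ range k, g t + g k - (∑ t ∈ range k, f t + f k)) :=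
        mul_le_mul_of_nonneg_right h3 (by linarith)
      nlinarith [h1, h4]
  have h1 := key n le_rfl
  have h2 := mul_nonneg (hr0 n) (sub_nonneg.2 (h n le_rfl))
  linarith

/-- The last record level before the time `t`: a time `t` is a record if `N t` is more than `q` times the last record level. -/
noncomputable def lev (q : ℝ) (N : ℕ → ℝ) : ℕ → ℝ
  | 0 => 0
  | t + 1 => if q * lev q N t < N t then N t else lev q N t

/-- The new levels. -/
noncomputable def rec' (q : ℝ) (N : ℕ → ℝ) (t : ℕ) : ℝ := if q * lev q N t < N t then N t else 0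

theorem lev_nonneg {q : ℝ} {N : ℕ → ℝ} (hN : ∀ t, 0 ≤ N t) : ∀ t, 0 ≤ lev q N t := by
  intro t
  induction t with
  | zero => exact le_rfl
  | succ t ih =>
    rw [lev]
    split_ifs
    · exact hN t
    · exact ih

theorem rec'_nonneg {q : ℝ} {N : ℕ → ℝ} (hN : ∀ t, 0 ≤ N t) (t : ℕ) : 0 ≤ rec' q N t := by
  unfold rec'
  split_ifs
  · exact hN t
  · exact le_rfl

theorem le_lev {q : ℝ} {N : ℕ → ℝ} (hq : 1 ≤ q) (hN : ∀ t, 0 ≤ N t) (t : ℕ) : N t ≤ q * lev q N (t + 1) := by
  rw [lev]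
  split_ifs with h
  · exact le_mul_of_one_le_left (hN t) hq
  · exact not_lt.1 h

theorem lev_le_sum {q : ℝ} {N : ℕ → ℝ} (hN : ∀ t, 0 ≤ N t) : ∀ t, lev q N t ≤ ∑ s ∈ range t, rec' q N s := by
  intro t
  induction t with
  | zero => simp [lev]
  | succ t ih =>
    rw [lev, sum_range_succ]
    have h0 : 0 ≤ ∑ s ∈ range t, rec' q N s := sum_nonneg fun s _ => rec'_nonneg hN s
    unfold rec' at ih h0 ⊢
    split_ifs with h
    · linarith
    · linarith

theorem lev_le {q : ℝ} {N : ℕ → ℝ} {B : ℝ} (hB : 0 ≤ B) {n : ℕ} (hN : ∀ t, t < n → N t ≤ B) : ∀ t, t ≤ n → lev q N t ≤ B := by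
  intro t
  induction t with
  | zero => intro _; exact hB
  | succ t ih =>
    intro ht
    rw [lev]
    split_ifs
    · exact hN t ht
    · exact ih (by omega)

/-- The records grow geometrically. -/
theorem sum_rec_le {q θ : ℝ} (hq : 0 < q) (hθ : 0 < θ) (hq2 : q ^ θ = 2) {N : ℕ → ℝ} (hN : ∀ t, 0 ≤ N t) :
    ∀ n, ∑ t ∈ range n, (rec' q N t) ^ θ ≤ 2 * (lev q N n) ^ θ := by
  intro n
  induction n with
  | zero => simp [lev, Real.zero_rpow hθ.ne']
  | succ n ih =>
    rw [sum_range_succ]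
    have h0 := lev_nonneg (q := q) hN n
    by_cases h : q * lev q N n < N n
    · have h1 : rec' q N n = N n := if_pos h
      have h2 : lev q N (n + 1) = N n := by rw [lev, if_pos h]
      rw [h1, h2]
      have h3 : (q * lev q N n) ^ θ ≤ (N n) ^ θ := Real.rpow_le_rpow (by positivity) h.le hθ.le
      rw [Real.mul_rpow hq.le h0, hq2] at h3
      linarith
    · have h1 : rec' q N n = 0 := if_neg h
      have h2 : lev q N (n + 1) = lev q N n := by rw [lev, if_neg h]
      rw [h1, h2, Real.zero_rpow hθ.ne']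
      linarith

/-- The pointwise inequality. -/
theorem pass_le {q : ℝ} (hq : 1 ≤ q) {N r f : ℕ → ℝ} (hN : ∀ t, 0 ≤ N t) (hr0 : ∀ t, 0 ≤ r t) (hr : Antitone r) {n : ℕ}
    (hf : ∀ k, k < n → ∑ t ∈ range (k + 1), f t ≤ N k) :
    ∑ t ∈ range n, f t * r t ≤ ∑ t ∈ range n, (q * rec' q N t) * r t := by
  refine abel_le hr0 hr fun k hk => ?_
  rcases Nat.eq_zero_or_pos k with h | h
  · subst h; simp
  · obtain ⟨j, rfl⟩ : ∃ j, k = j + 1 := ⟨k - 1, by omega⟩
    calc ∑ t ∈ range (j + 1), f t ≤ N j := hf j (by omega)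
      _ ≤ q * lev q N (j + 1) := le_lev hq hN j
      _ ≤ q * ∑ t ∈ range (j + 1), rec' q N t := by
          have := lev_le_sum (q := q) hN (j + 1)
          nlinarith
      _ = _ := by rw [mul_sum]

/-- `(∑ a)^θ ≤ ∑ a^θ`. -/
theorem rpow_sum_le {θ : ℝ} (h0 : 0 < θ) (h1 : θ ≤ 1) (a : ℕ → ℝ) (ha : ∀ t, 0 ≤ a t) (n : ℕ) :
    (∑ t ∈ range n, a t) ^ θ ≤ ∑ t ∈ range n, (a t) ^ θ := by
  induction n with
  | zero => simp [Real.zero_rpow h0.ne']
  | succ n ih =>
    rw [sum_range_succ, sum_range_succ]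
    have hs : 0 ≤ ∑ t ∈ range n, a t := sum_nonneg fun t _ => ha t
    exact (Real.rpow_add_le_add_rpow hs (ha n) h0.le h1).trans (by linarith)

variable {Ω : Type*} {m0 : MeasurableSpace Ω} {P : Measure Ω}

/-- **Time levels.** The `θ` moment of a sum of products (passage up to now) x (future) is at most `4` times the product of the moments. -/
theorem level_prod {θ : ℝ} (hθ : 0 < θ) (hθ1 : θ ≤ 1) (𝓕 𝓖 : ℕ → MeasurableSpace Ω) (n : ℕ)
    (hF : ∀ t, t < n → 𝓕 t ≤ m0) (hG : ∀ t, t < n → 𝓖 t ≤ m0) (hind : ∀ t, t < n → Indep (𝓕 t) (𝓖 t) P)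
    (N r : ℕ → Ω → ℝ) (hNm : ∀ s t, s ≤ t → t < n → Measurable[𝓕 t] (N s)) (hN : ∀ t ω, 0 ≤ N t ω)
    (hrm : ∀ t, t < n → Measurable[𝓖 t] (r t)) (hr0 : ∀ t ω, 0 ≤ r t ω) (hr : ∀ ω, Antitone fun t => r t ω)
    (M : Ω → ℝ) (hM : ∀ t, t < n → ∀ ω, N t ω ≤ M ω) (hM0 : ∀ ω, 0 ≤ M ω)
    {B : ℝ≥0∞} (hB : ∀ t, t < n → ∫⁻ ω, ENNReal.ofReal (r t ω ^ θ) ∂P ≤ B)
    (X : Ω → ℝ) (hX0 : ∀ ω, 0 ≤ X ω)
    (hX : ∀ ω, ∃ f : ℕ → ℝ, (∀ k, k < n → ∑ t ∈ range (k + 1), f t ≤ N k ω) ∧ X ω ≤ ∑ t ∈ range n, f t * r t ω) :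
    ∫⁻ ω, ENNReal.ofReal (X ω ^ θ) ∂P ≤ 4 * (∫⁻ ω, ENNReal.ofReal (M ω ^ θ) ∂P) * B := by
  set q : ℝ := 2 ^ (1 / θ) with hqd
  have hq0 : 0 < q := by positivity
  have hq1 : 1 ≤ q := Real.one_le_rpow (by norm_num) (by positivity)
  have hq2 : q ^ θ = 2 := by
    rw [hqd, ← Real.rpow_mul (by norm_num), one_div, inv_mul_cancel₀ hθ.ne', Real.rpow_one]
  have hlevm : ∀ s t, s ≤ t + 1 → t < n → Measurable[𝓕 t] fun ω => lev q (fun u => N u ω) s := by
    intro s
    induction s with
    | zero => intro t _ _; exact measurable_const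
    | succ s ih =>
      intro t hs ht
      have h1 := ih t (by omega) ht
      have h2 := hNm s t (by omega) ht
      have h3 : MeasurableSet[𝓕 t] {ω | q * lev q (fun u => N u ω) s < N s ω} :=
        measurableSet_lt (h1.const_mul q) h2
      exact Measurable.ite h3 h2 h1
  have hrecm : ∀ t, t < n → Measurable[𝓕 t] fun ω => rec' q (fun u => N u ω) t := by
    intro t ht
    have h1 := hlevm t t (by omega) ht
    have h2 := hNm t t le_rfl ht
    have h3 : MeasurableSet[𝓕 t] {ω | q * lev q (fun u => N u ω) t < N t ω} :=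
      measurableSet_lt (h1.const_mul q) h2
    exact Measurable.ite h3 h2 measurable_const
  -- the pointwise bound
  have hpt : ∀ ω, ENNReal.ofReal (X ω ^ θ) ≤ ∑ t ∈ range n,
      2 * (ENNReal.ofReal (rec' q (fun u => N u ω) t ^ θ) * ENNReal.ofReal (r t ω ^ θ)) := by
    intro ω
    obtain ⟨f, hf1, hf2⟩ := hX ω
    have h1 := pass_le hq1 (fun t => hN t ω) (fun t => hr0 t ω) (hr ω) hf1
    have h2 : X ω ^ θ ≤ ∑ t ∈ range n, ((q * rec' q (fun u => N u ω) t) * r t ω) ^ θ := by
      refine (Real.rpow_le_rpow (hX0 ω) (hf2.trans h1) hθ.le).trans ?_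
      exact rpow_sum_le hθ hθ1 _ (fun t => mul_nonneg (mul_nonneg hq0.le (rec'_nonneg (fun t => hN t ω) t)) (hr0 t ω)) n
    refine (ENNReal.ofReal_le_ofReal h2).trans ?_
    rw [ENNReal.ofReal_sum_of_nonneg fun t _ => Real.rpow_nonneg
      (mul_nonneg (mul_nonneg hq0.le (rec'_nonneg (fun t => hN t ω) t)) (hr0 t ω)) _]
    refine sum_le_sum fun t _ => ?_
    rw [Real.mul_rpow (mul_nonneg hq0.le (rec'_nonneg (fun t => hN t ω) t)) (hr0 t ω),
      Real.mul_rpow hq0.le (rec'_nonneg (fun t => hN t ω) t), hq2,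
      ENNReal.ofReal_mul (mul_nonneg (by norm_num) (Real.rpow_nonneg (rec'_nonneg (fun t => hN t ω) t) _)),
      ENNReal.ofReal_mul (by norm_num), ENNReal.ofReal_ofNat, mul_assoc]
  -- integrate
  calc ∫⁻ ω, ENNReal.ofReal (X ω ^ θ) ∂P
      ≤ ∫⁻ ω, ∑ t ∈ range n, 2 * (ENNReal.ofReal (rec' q (fun u => N u ω) t ^ θ) * ENNReal.ofReal (r t ω ^ θ)) ∂P :=
        lintegral_mono hpt
    _ = ∑ t ∈ range n, ∫⁻ ω, 2 * (ENNReal.ofReal (rec' q (fun u => N u ω) t ^ θ) * ENNReal.ofReal (r t ω ^ θ)) ∂P := by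
        rw [lintegral_finsetSum']
        intro t ht
        have ht' := mem_range.1 ht
        have h1 : Measurable fun ω => rec' q (fun u => N u ω) t := (hrecm t ht').mono (hF t ht') le_rfl
        have h2 : Measurable (r t) := (hrm t ht').mono (hG t ht') le_rfl
        exact (((h1.pow_const θ).ennreal_ofReal.mul (h2.pow_const θ).ennreal_ofReal).const_mul 2).aemeasurable
    _ ≤ ∑ t ∈ range n, 2 * ((∫⁻ ω, ENNReal.ofReal (rec' q (fun u => N u ω) t ^ θ) ∂P) * B) := by
        refine sum_le_sum fun t ht => ?_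
        have ht' := mem_range.1 ht
        rw [lintegral_const_mul' _ _ (by norm_num)]
        refine mul_le_mul_right ?_ 2
        have h1 : Measurable[𝓕 t] fun ω => ENNReal.ofReal (rec' q (fun u => N u ω) t ^ θ) :=
          (((hrecm t ht').pow_const θ)).ennreal_ofReal
        have h2 : Measurable[𝓖 t] fun ω => ENNReal.ofReal (r t ω ^ θ) := ((hrm t ht').pow_const θ).ennreal_ofReal
        rw [lintegral_mul_eq_lintegral_mul_lintegral_of_independent_measurableSpace (hF t ht') (hG t ht') (hind t ht') h1 h2]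
        exact mul_le_mul_right (hB t ht') _
    _ = 2 * (∫⁻ ω, ∑ t ∈ range n, ENNReal.ofReal (rec' q (fun u => N u ω) t ^ θ) ∂P) * B := by
        rw [lintegral_finsetSum', mul_sum, sum_mul]
        · exact sum_congr rfl fun t _ => by rw [mul_assoc]
        · intro t ht
          have ht' := mem_range.1 ht
          have h1 : Measurable fun ω => rec' q (fun u => N u ω) t := (hrecm t ht').mono (hF t ht') le_rfl
          exact ((h1.pow_const θ).ennreal_ofReal).aemeasurable
    _ ≤ 2 * (∫⁻ ω, 2 * ENNReal.ofReal (M ω ^ θ) ∂P) * B := by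
        refine mul_le_mul_left (mul_le_mul_right (lintegral_mono fun ω => ?_) 2) B
        have h1 := sum_rec_le hq0 hθ hq2 (fun t => hN t ω) n
        have h2 := lev_le (q := q) (hM0 ω) (fun t ht => hM t ht ω) n le_rfl
        have h3 : lev q (fun u => N u ω) n ^ θ ≤ M ω ^ θ :=
          Real.rpow_le_rpow (lev_nonneg (fun t => hN t ω) n) h2 hθ.le
        rw [← ENNReal.ofReal_sum_of_nonneg fun t _ => Real.rpow_nonneg (rec'_nonneg (fun t => hN t ω) t) _]
        rw [← ENNReal.ofReal_ofNat 2, ← ENNReal.ofReal_mul (by norm_num)]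
        exact ENNReal.ofReal_le_ofReal (by linarith)
    _ = 4 * (∫⁻ ω, ENNReal.ofReal (M ω ^ θ) ∂P) * B := by
        rw [lintegral_const_mul' _ _ (by norm_num), ← mul_assoc]
        norm_num

end Pool.Agent.W_7d29a1_h83
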